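import Pool.Agent.helper3.GDS.Upper2
import Pool.Agent.helper3.GDS.Lower

/-!
# The minimum size of a geometric dominating set of the `n × n` grid is of order `n^(2/3)`
-/

set_option autoImplicit false

namespace Pool.Agent.Results.MP_3ed5ef_co.ThetaTwoThirds

open Pool.Agent.helper3.GDS

/-- `n^(2/3) / 10 ≤ γ(n) ≤ 16384 n^(2/3)` for all `n ≥ 1`; consequently `γ(n) < γ(m)` for all `m ≥ 2^26 n`. -/
theorem result :
    (∀ n : ℕ, 1 ≤ n → (n : ℝ) ^ (2 / 3 : ℝ) / 10 ≤ (gamma n : ℝ) ∧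
      (gamma n : ℝ) ≤ 16384 * (n : ℝ) ^ (2 / 3 : ℝ)) ∧
    ∀ n m : ℕ, 1 ≤ n → 2 ^ 26 * n ≤ m → gamma n < gamma m := by
  have hup : ∀ n : ℕ, 1 ≤ n → gamma n ^ 3 ≤ 16384 ^ 3 * n ^ 2 := by
    intro n hn
    have h1 := gamma_upper n hn
    have h2 : (gamma n : ℝ) ^ 3 ≤ (16384 * f n) ^ 3 := pow_le_pow_left₀ (Nat.cast_nonneg _) h1 3
    rw [mul_pow, f_cube] at h2
    exact_mod_cast h2
  constructor
  · intro n hn
    refine ⟨?_, gamma_upper n hn⟩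
    have h1 : ((n ^ 2 : ℕ) : ℝ) ≤ ((961 * gamma n ^ 3 : ℕ) : ℝ) := Nat.cast_le.2 (gamma_lower hn)
    push_cast at h1
    have h2 : f n ≤ 10 * (gamma n : ℝ) := by
      apply le_of_cube (mul_nonneg (by norm_num) (Nat.cast_nonneg _))
      rw [f_cube, mul_pow]
      have h3 : (0 : ℝ) ≤ (gamma n : ℝ) ^ 3 := by positivity
      linarith
    have h4 : (n : ℝ) ^ (2 / 3 : ℝ) ≤ 10 * (gamma n : ℝ) := h2
    linarith
  · intro n m hn hm
    by_contra hcon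
    rw [not_lt] at hcon
    have hm1 : 1 ≤ m := by
      have : 1 ≤ 2 ^ 26 * n := by omega
      omega
    have h1 := gamma_lower hm1
    have h2 := hup n hn
    have h3 : gamma m ^ 3 ≤ gamma n ^ 3 := Nat.pow_le_pow_left hcon 3
    have h4 : m ^ 2 ≤ 961 * (16384 ^ 3 * n ^ 2) :=
      h1.trans (Nat.mul_le_mul_left _ (h3.trans h2))
    have h5 : (2 ^ 26 * n) ^ 2 ≤ m ^ 2 := Nat.pow_le_pow_left hm 2
    have h6 : 0 < n ^ 2 := by positivity
    nlinarith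

end Pool.Agent.Results.MP_3ed5ef_co.ThetaTwoThirds
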